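import Pool.Agent.V11266.CLf

namespace Pool.Agent.Results.MP_32f763_nt.NotRegular

/-- The continued logarithm length sequence `L(n)` is not `k`-regular for any `k ≥ 2`. -/
theorem result : ∀ k : ℕ, 2 ≤ k →
    ¬ Pool.Agent.V11266.CL.IsRegular k (fun n => (Pool.Agent.V11266.CL.L n : ℤ)) :=
  Pool.Agent.V11266.CL.not_regular

end Pool.Agent.Results.MP_32f763_nt.NotRegular
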